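import Mathlib

/-!
Definitions for `MP_426edc_al`: the lower central series of the free associative ring
`A_n(ℤ) = ℤ⟨x_1, …, x_n⟩`, its quotients `B_ℓ`, and the degree with respect to a variable.
-/

namespace Pool.Agent.N26.Lcs426

/-- The free associative unital ring `A_n(ℤ)` on the generators `x_j`, `j : Fin n`. -/
abbrev A (n : ℕ) : Type := FreeAlgebra ℤ (Fin n)

/-- The lower central series of `A_n(ℤ)` as a Lie ring: `L_1 = A_n(ℤ)` and
`L_{k+1}` is the additive subgroup generated by all `[a,b] = ab - ba` with `a ∈ A_n(ℤ)` and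
`b ∈ L_k`.  (The value at the index `0` is never used.) -/
def L (n : ℕ) : ℕ → AddSubgroup (A n)
  | 0 => ⊤
  | 1 => ⊤
  | (k + 2) => AddSubgroup.closure {c | ∃ a : A n, ∃ b ∈ L n (k + 1), c = a * b - b * a}

/-- `B_ℓ(A_n(ℤ)) = L_ℓ / L_{ℓ+1}`. -/
abbrev B (n ℓ : ℕ) : Type := (L n ℓ) ⧸ ((L n (ℓ + 1)).addSubgroupOf (L n ℓ))

/-- The monomial (word) `x_{w_1} x_{w_2} ⋯`. -/
def mon {n : ℕ} (w : List (Fin n)) : A n := (w.map (FreeAlgebra.ι ℤ)).prod

/-- The sum of the multidegree components of `A_n(ℤ)` with `m_j = m`: the additive subgroup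
generated by the words in which `x_j` occurs exactly `m` times. -/
def degPart (n : ℕ) (j : Fin n) (m : ℕ) : AddSubgroup (A n) :=
  AddSubgroup.closure {c | ∃ w : List (Fin n), w.count j = m ∧ c = mon w}

/-- The component of `A_n(ℤ)` of multidegree `d`. -/
def multiPart (n : ℕ) (d : Fin n → ℕ) : AddSubgroup (A n) :=
  AddSubgroup.closure {c | ∃ w : List (Fin n), (∀ j, w.count j = d j) ∧ c = mon w}

/-- `T ∈ B_ℓ` has degree `m` with respect to `x_j`: it is the class of an element of `L_ℓ` lying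
in the sum of the components with `m_j = m`. -/
def HasDegree {n ℓ : ℕ} (j : Fin n) (m : ℕ) (T : B n ℓ) : Prop :=
  ∃ a : L n ℓ, (a : A n) ∈ degPart n j m ∧ T = QuotientAddGroup.mk a

/-- `T ∈ B_ℓ` lies in the component `B_ℓ[d_1, …, d_n]`. -/
def HasMultidegree {n ℓ : ℕ} (d : Fin n → ℕ) (T : B n ℓ) : Prop :=
  ∃ a : L n ℓ, (a : A n) ∈ multiPart n d ∧ T = QuotientAddGroup.mk a

/-- The statement of the question Q1: every torsion element `T` of `B_ℓ(A_n(ℤ))` of degree `m`
with respect to `x_j` has order dividing `m`. -/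
def Q1 : Prop :=
  ∀ n ℓ : ℕ, 1 ≤ n → 1 ≤ ℓ → ∀ (j : Fin n) (m : ℕ) (T : B n ℓ),
    T ≠ 0 → IsOfFinAddOrder T → HasDegree j m T → addOrderOf T ∣ m

end Pool.Agent.N26.Lcs426
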