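import Pool.Agent.N26.Lcs426Defs

/-!
A multilinear element of order `3` in `B_3(A_5(ℤ))`.
-/

set_option maxRecDepth 100000

namespace Pool.Agent.N26.Lcs426

/-- commutator -/
def br {R : Type*} [Ring R] (a b : R) : R := a * b - b * a

/-- The element `T`. -/
def tor {R : Type*} [Ring R] (x0 x1 x2 x3 x4 : R) : R :=
  br (x2 * x1 * x0) (br x4 x3) - br (x0 * x1 * x2) (br x4 x3)
    + br (x4 * x3 * x2) (br x1 x0) - br (x2 * x3 * x4) (br x1 x0)
    + br x2 (br x1 (x0 * x3 * x4)) - br x2 (br x1 (x0 * x4 * x3))

/-- `3 T` as an explicit combination of elements `[a,[b,[c,d]]]`. -/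
theorem three_tor {R : Type*} [Ring R] (x0 x1 x2 x3 x4 : R) :
    (3 : ℤ) • tor x0 x1 x2 x3 x4 =
      br x3 (br x0 (br x4 (x1 * x2)))
      - (2 : ℤ) • br (x1 * x0) (br x2 (br x4 x3))
      - br x2 (br x3 (br x4 (x1 * x0)))
      + (2 : ℤ) • br (x0 * x3) (br x4 (br x1 x2))
      + br x1 (br x2 (br (x0 * x3) x4))
      + br x1 (br (x4 * x0) (br x2 x3))
      + (2 : ℤ) • br (x1 * x2) (br x0 (br x4 x3))
      + br x1 (br (x2 * x0) (br x3 x4))
      - br (x0 * x4) (br x3 (br x1 x2))
      - br x2 (br x3 (br x1 (x0 * x4)))
      - br (x3 * x2) (br x1 (br x4 x0))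
      + br x0 (br x3 (br (x4 * x2) x1))
      + br x1 (br x0 (br x2 (x4 * x3)))
      - br x0 (br (x3 * x1) (br x4 x2))
      - br x1 (br x3 (br x0 (x4 * x2)))
      + br x3 (br (x0 * x1) (br x2 x4))
      + br x1 (br (x2 * x3) (br x0 x4))
      - br x0 (br x1 (br (x3 * x2) x4))
      + (2 : ℤ) • br x0 (br x1 (br x3 (x2 * x4)))
      + br (x4 * x2) (br x0 (br x1 x3))
      + br x2 (br (x1 * x3) (br x4 x0))
      + br x2 (br x1 (br x0 (x3 * x4)))
      + br (x3 * x1) (br x2 (br x4 x0))
      - br x2 (br (x1 * x0) (br x3 x4))
      + br x0 (br (x3 * x2) (br x4 x1))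
      - (2 : ℤ) • br x3 (br x0 (br (x4 * x2) x1))
      + br x0 (br x2 (br x3 (x4 * x1)))
      - br x1 (br x4 (br x0 (x2 * x3)))
      - br x0 (br x3 (br (x2 * x4) x1))
      + br x3 (br x2 (br x0 (x1 * x4)))
      + br (x0 * x1) (br x3 (br x4 x2))
      - br (x3 * x2) (br x0 (br x1 x4))
      - br x1 (br x2 (br (x0 * x4) x3))
      + br (x0 * x3) (br x2 (br x4 x1))
      - br (x4 * x3) (br x2 (br x0 x1)) := by
  simp only [tor, br]
  noncomm_ring

/-- code of a word -/
def code (w : List (Fin 5)) : ℕ := w.foldl (fun acc x => 5 * acc + x.val) 1

/-- table of the functional `φ` (two bits for each word of length five) -/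
def table : ℕ := 52791680683910692793628554566734937181204179899384535743862811999877958616300615123299482956154569648394372248099700894987614847914240597584255733030841836518835000795160878201812844591550394905753270585722105801776341405093170626540404907803453823763785516463359161320510098833820429449234463043530083934987495049501178483262881593914121883961755927336349980576767665004735034921204093214578938025042994145117046150128268870131665609848913585934410449958547152955810647611438486961664631974565749526347579347691666819084704533564561170578082126274116413069723345665520583911011176306846350946765073479867866146869622220408732699643188759081604308931963352317071961996446862453322906746224051438652842383013546949489715207228074932380104617576287087473410293896420622798925300712729056098498174833145560929153667876894129110390694994852904705808562491287654652720564363882892363257600195239805485555837462519734013664747624165022518498783596841601316708508609294714995280105467597044998754621036464034408563757519829850243173325643367965426053439730049612195401613616684118791294289572608214531962013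27775220158223005511728378475132094710285761560438957488416527186108516035432441202861325046723975331247380351885741466898903364907975050087528771825571574553744358718478812362759630632503290556954911937494881910792415095329259923997289689877814603768379778307356757569791807009684831243169932446003660073786345102967959708567282169432854966078552798348826726456915696677403944139346126653299254560085510694361240217617571786201470160416143652594380034908527101455592560552778526710344219309191874395683443434818106885565781732515130503533302618689272457621904557797904271240350706338880494991765929984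

/-- the functional `φ` on words -/
def f (w : List (Fin 5)) : ℕ :=
  if w.length = 5 then (table >>> (2 * (code w - 3125))) % 4 else 0

/-- the value of `φ` at `[u1,[u2,[u3,u4]]]` vanishes -/
def chk (u1 u2 u3 u4 : List (Fin 5)) : Bool :=
  (f (u1 ++ (u2 ++ (u3 ++ u4))) + f (u1 ++ (u4 ++ (u3 ++ u2))) + f (u2 ++ (u4 ++ (u3 ++ u1)))
      + f (u3 ++ (u4 ++ (u2 ++ u1)))) % 3 ==
  (f (u1 ++ (u2 ++ (u4 ++ u3))) + f (u1 ++ (u3 ++ (u4 ++ u2))) + f (u2 ++ (u3 ++ (u4 ++ u1)))
      + f (u4 ++ (u3 ++ (u2 ++ u1)))) % 3

theorem check_all : ∀ w ∈ List.permutations' ([0, 1, 2, 3, 4] : List (Fin 5)),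
    ∀ i ∈ List.range 6, ∀ j ∈ List.range (6 - i), ∀ k ∈ List.range (6 - i - j),
      chk (w.take i) ((w.drop i).take j) (((w.drop i).drop j).take k)
        (((w.drop i).drop j).drop k) = true := by
  decide +kernel

theorem f_perm : ∀ a b c d e : Fin 5, f [a, b, c, d, e] ≠ 0 →
    [a, b, c, d, e].Perm ([0, 1, 2, 3, 4] : List (Fin 5)) := by
  decide +kernel

end Pool.Agent.N26.Lcs426
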