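import Pool.Agent.N26.Lcs426a

/-!
A multilinear element of order `3` in `B_3(A_5(ℤ))`: the functional and the final theorem.
-/

namespace Pool.Agent.N26.Lcs426

open FreeAlgebra

theorem mon_nil {n : ℕ} : (mon [] : A n) = 1 := rfl

theorem mon_append {n : ℕ} (u v : List (Fin n)) : (mon (u ++ v) : A n) = mon u * mon v := by
  simp [mon]

theorem basis_eq_mon {n : ℕ} (w : FreeMonoid (Fin n)) :
    basisFreeMonoid ℤ (Fin n) w = mon (FreeMonoid.toList w) := by
  simp [basisFreeMonoid, mon, equivMonoidAlgebraFreeMonoid, FreeMonoid.lift_apply]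
  exact (int_smul_eq_zsmul _ _ _).trans (one_zsmul _)

/-- the functional `φ` on `A_5(ℤ)` -/
noncomputable def φ : A 5 →+ ZMod 3 :=
  ((basisFreeMonoid ℤ (Fin 5)).constr ℤ
    (fun w => ((f (FreeMonoid.toList w) : ℕ) : ZMod 3))).toAddMonoidHom

theorem φ_mon (w : List (Fin 5)) : φ (mon w) = ((f w : ℕ) : ZMod 3) := by
  have h := (basisFreeMonoid ℤ (Fin 5)).constr_basis ℤ
    (fun w => ((f (FreeMonoid.toList w) : ℕ) : ZMod 3)) (FreeMonoid.ofList w)
  rw [basis_eq_mon] at h
  exact h

theorem mon_induction {n : ℕ} {P : A n → Prop} (h0 : P 0) (hm : ∀ w, P (mon w))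
    (hadd : ∀ a b, P a → P b → P (a + b)) (hsmul : ∀ (k : ℤ) a, P a → P (k • a)) :
    ∀ a, P a := by
  intro a
  have ha := (basisFreeMonoid ℤ (Fin n)).mem_span a
  induction ha using Submodule.span_induction with
  | mem x hx =>
    obtain ⟨w, rfl⟩ := hx
    rw [basis_eq_mon]; exact hm _
  | zero => exact h0
  | add x y _ _ hx hy => exact hadd _ _ hx hy
  | smul k x _ hx =>
    have e := int_smul_eq_zsmul (Algebra.toModule (R := ℤ) (A := A n)) k x
    have := hsmul k x hx
    rw [← e] at this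
    exact this

theorem f_ne_perm (w : List (Fin 5)) (h : f w ≠ 0) :
    w.Perm ([0, 1, 2, 3, 4] : List (Fin 5)) := by
  by_cases hl : w.length = 5
  · obtain ⟨a, b, c, d, e, rfl⟩ : ∃ a b c d e, w = [a, b, c, d, e] := by
      clear h
      match w, hl with
      | [a, b, c, d, e], _ => exact ⟨a, b, c, d, e, rfl⟩
    exact f_perm a b c d e h
  · exact absurd (if_neg hl) h

theorem chk_true (u1 u2 u3 u4 : List (Fin 5)) : chk u1 u2 u3 u4 = true := by
  by_cases hp : (u1 ++ (u2 ++ (u3 ++ u4))).Perm ([0, 1, 2, 3, 4] : List (Fin 5))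
  · have hw : (u1 ++ (u2 ++ (u3 ++ u4))) ∈
        List.permutations' ([0, 1, 2, 3, 4] : List (Fin 5)) := List.mem_permutations'.2 hp
    have hlen : u1.length + (u2.length + (u3.length + u4.length)) = 5 := by
      have := hp.length_eq
      simpa using this
    have h := check_all _ hw u1.length (List.mem_range.2 (by omega)) u2.length
      (List.mem_range.2 (by omega)) u3.length (List.mem_range.2 (by omega))
    simpa using h
  · have key : ∀ v : List (Fin 5), v.Perm (u1 ++ (u2 ++ (u3 ++ u4))) → f v = 0 := by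
      intro v hv
      by_contra hne
      exact hp (hv.symm.trans (f_ne_perm v hne))
    have p1 : f (u1 ++ (u2 ++ (u3 ++ u4))) = 0 := key _ (List.Perm.refl _)
    have cnt : ∀ v : List (Fin 5), (∀ x, v.count x = (u1 ++ (u2 ++ (u3 ++ u4))).count x) →
        f v = 0 := fun v hv => key v (List.perm_iff_count.2 hv)
    have p2 : f (u1 ++ (u4 ++ (u3 ++ u2))) = 0 :=
      cnt _ (fun x => by simp only [List.count_append]; omega)
    have p3 : f (u2 ++ (u4 ++ (u3 ++ u1))) = 0 :=
      cnt _ (fun x => by simp only [List.count_append]; omega)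
    have p4 : f (u3 ++ (u4 ++ (u2 ++ u1))) = 0 :=
      cnt _ (fun x => by simp only [List.count_append]; omega)
    have p5 : f (u1 ++ (u2 ++ (u4 ++ u3))) = 0 :=
      cnt _ (fun x => by simp only [List.count_append]; omega)
    have p6 : f (u1 ++ (u3 ++ (u4 ++ u2))) = 0 :=
      cnt _ (fun x => by simp only [List.count_append]; omega)
    have p7 : f (u2 ++ (u3 ++ (u4 ++ u1))) = 0 :=
      cnt _ (fun x => by simp only [List.count_append]; omega)
    have p8 : f (u4 ++ (u3 ++ (u2 ++ u1))) = 0 :=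
      cnt _ (fun x => by simp only [List.count_append]; omega)
    simp [chk, p1, p2, p3, p4, p5, p6, p7, p8]

theorem φ_br_mon (u1 u2 u3 u4 : List (Fin 5)) :
    φ (br (mon u1) (br (mon u2) (br (mon u3) (mon u4)))) = 0 := by
  have h := chk_true u1 u2 u3 u4
  simp only [chk, beq_iff_eq] at h
  have h' := (ZMod.natCast_eq_natCast_iff' _ _ 3).2 h
  push_cast at h'
  have e : br (mon u1) (br (mon u2) (br (mon u3) (mon u4))) =
      (mon (u1 ++ (u2 ++ (u3 ++ u4))) + mon (u1 ++ (u4 ++ (u3 ++ u2)))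
        + mon (u2 ++ (u4 ++ (u3 ++ u1))) + mon (u3 ++ (u4 ++ (u2 ++ u1)))) -
      (mon (u1 ++ (u2 ++ (u4 ++ u3))) + mon (u1 ++ (u3 ++ (u4 ++ u2)))
        + mon (u2 ++ (u3 ++ (u4 ++ u1))) + mon (u4 ++ (u3 ++ (u2 ++ u1))) : A 5) := by
    simp only [mon_append, br]
    noncomm_ring
  rw [e]
  simp only [map_sub, map_add, φ_mon]
  rw [h', sub_self]

theorem br_zero_left {R : Type*} [Ring R] (b : R) : br 0 b = 0 := by simp [br]
theorem br_zero_right {R : Type*} [Ring R] (b : R) : br b 0 = 0 := by simp [br]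
theorem br_add_left {R : Type*} [Ring R] (a a' b : R) : br (a + a') b = br a b + br a' b := by
  simp only [br]; noncomm_ring
theorem br_add_right {R : Type*} [Ring R] (a b b' : R) : br a (b + b') = br a b + br a b' := by
  simp only [br]; noncomm_ring
theorem br_smul_left {R : Type*} [Ring R] (k : ℤ) (a b : R) : br (k • a) b = k • br a b := by
  simp only [br, smul_mul_assoc, mul_smul_comm, smul_sub]
theorem br_smul_right {R : Type*} [Ring R] (k : ℤ) (a b : R) : br a (k • b) = k • br a b := by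
  simp only [br, smul_mul_assoc, mul_smul_comm, smul_sub]

theorem φ_br (a b c d : A 5) : φ (br a (br b (br c d))) = 0 := by
  revert a
  refine mon_induction (by simp [br_zero_left]) ?_
    (fun a a' h h' => by rw [br_add_left, map_add, h, h', add_zero])
    (fun k a h => by rw [br_smul_left, map_zsmul, h, smul_zero])
  intro u1
  revert b
  refine mon_induction (by simp [br_zero_left, br_zero_right]) ?_
    (fun a a' h h' => by rw [br_add_left, br_add_right, map_add, h, h', add_zero])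
    (fun k a h => by rw [br_smul_left, br_smul_right, map_zsmul, h, smul_zero])
  intro u2
  revert c
  refine mon_induction (by simp [br_zero_left, br_zero_right]) ?_
    (fun a a' h h' => by
      rw [br_add_left, br_add_right, br_add_right, map_add, h, h', add_zero])
    (fun k a h => by
      rw [br_smul_left, br_smul_right, br_smul_right, map_zsmul, h, smul_zero])
  intro u3
  revert d
  refine mon_induction (by simp [br_zero_right]) ?_
    (fun a a' h h' => by
      rw [br_add_right, br_add_right, br_add_right, map_add, h, h', add_zero])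
    (fun k a h => by
      rw [br_smul_right, br_smul_right, br_smul_right, map_zsmul, h, smul_zero])
  intro u4
  exact φ_br_mon u1 u2 u3 u4

/-- membership of brackets in `L_{k+1}` -/
theorem br_mem {n k : ℕ} (a : A n) {b : A n} (hb : b ∈ L n (k + 1)) : br a b ∈ L n (k + 2) :=
  AddSubgroup.subset_closure ⟨a, b, hb, rfl⟩

theorem mem_L1 {n : ℕ} (a : A n) : a ∈ L n 1 := by
  show a ∈ (⊤ : AddSubgroup (A n)); trivial

theorem L_le_ker_2 {n : ℕ} {P : A n → Prop} (h0 : P 0)
    (hadd : ∀ a b, P a → P b → P (a + b)) (hneg : ∀ a, P a → P (-a)) {k : ℕ}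
    (hb : ∀ a : A n, ∀ b ∈ L n (k + 1), P (br a b)) : ∀ c ∈ L n (k + 2), P c := by
  intro c hc
  have hc' : c ∈ AddSubgroup.closure {c | ∃ a : A n, ∃ b ∈ L n (k + 1), c = a * b - b * a} := hc
  induction hc' using AddSubgroup.closure_induction with
  | mem x hx => obtain ⟨a, b, hb', rfl⟩ := hx; exact hb a b hb'
  | zero => exact h0
  | add x y hx' hy' hx hy => exact hadd _ _ (hx hx') (hy hy')
  | neg x hx' hx => exact hneg _ (hx hx')

theorem φ_L4 : ∀ c ∈ L 5 4, φ c = 0 := by
  refine L_le_ker_2 (k := 2) (by simp) (fun a b ha hb => by rw [map_add, ha, hb, add_zero])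
    (fun a ha => by rw [map_neg, ha, neg_zero]) ?_
  intro a
  refine L_le_ker_2 (k := 1) (by simp [br_zero_right])
    (fun b b' hb hb' => by rw [br_add_right, map_add, hb, hb', add_zero])
    (fun b hb => by
      have : br a (-b) = (-1 : ℤ) • br a b := by
        rw [← br_smul_right]; simp
      rw [this, map_zsmul, hb, smul_zero]) ?_
  intro b
  refine L_le_ker_2 (k := 0) (by simp [br_zero_right])
    (fun c c' hc hc' => by rw [br_add_right, br_add_right, map_add, hc, hc', add_zero])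
    (fun c hc => by
      have : br a (br b (-c)) = (-1 : ℤ) • br a (br b c) := by
        rw [← br_smul_right, ← br_smul_right]; simp
      rw [this, map_zsmul, hc, smul_zero]) ?_
  intro c d _
  exact φ_br a b c d

/-- generators -/
noncomputable def x (i : Fin 5) : A 5 := FreeAlgebra.ι ℤ i

/-- The torsion element, upstairs. -/
noncomputable def t : A 5 := tor (x 0) (x 1) (x 2) (x 3) (x 4)

theorem br3_mem {n : ℕ} (a b c : A n) : br a (br b c) ∈ L n 3 :=
  br_mem a (br_mem b (mem_L1 c))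

theorem br4_mem {n : ℕ} (a b c d : A n) : br a (br b (br c d)) ∈ L n 4 :=
  br_mem a (br_mem b (br_mem c (mem_L1 d)))

theorem t_mem : t ∈ L 5 3 := by
  simp only [t, tor]
  refine sub_mem (add_mem (sub_mem (add_mem (sub_mem ?_ ?_) ?_) ?_) ?_) ?_ <;> exact br3_mem _ _ _

theorem three_t_mem : (3 : ℤ) • t ∈ L 5 4 := by
  rw [t, three_tor]
  repeat' first
    | exact br4_mem _ _ _ _
    | exact AddSubgroup.zsmul_mem _ (br4_mem _ _ _ _) _
    | refine sub_mem ?_ ?_
    | refine add_mem ?_ ?_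

theorem t_eq : t =
    (mon [2, 1, 0, 4, 3] - mon [2, 1, 0, 3, 4] - mon [4, 3, 2, 1, 0] + mon [3, 4, 2, 1, 0])
    - (mon [0, 1, 2, 4, 3] - mon [0, 1, 2, 3, 4] - mon [4, 3, 0, 1, 2] + mon [3, 4, 0, 1, 2])
    + (mon [4, 3, 2, 1, 0] - mon [4, 3, 2, 0, 1] - mon [1, 0, 4, 3, 2] + mon [0, 1, 4, 3, 2])
    - (mon [2, 3, 4, 1, 0] - mon [2, 3, 4, 0, 1] - mon [1, 0, 2, 3, 4] + mon [0, 1, 2, 3, 4])
    + (mon [2, 1, 0, 3, 4] - mon [2, 0, 3, 4, 1] - mon [1, 0, 3, 4, 2] + mon [0, 3, 4, 1, 2])
    - (mon [2, 1, 0, 4, 3] - mon [2, 0, 4, 3, 1] - mon [1, 0, 4, 3, 2] + mon [0, 4, 3, 1, 2]) := by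
  simp only [t, tor, br, mon, x, List.map_cons, List.map_nil, List.prod_cons, List.prod_nil,
    mul_one]
  noncomm_ring

theorem φ_t : φ t ≠ 0 := by
  rw [t_eq]
  simp only [map_sub, map_add, φ_mon]
  decide +kernel

theorem t_multi : t ∈ multiPart 5 (fun _ => 1) := by
  have h : ∀ w : List (Fin 5), (∀ j, w.count j = 1) → mon w ∈ multiPart 5 (fun _ => 1) :=
    fun w hw => AddSubgroup.subset_closure ⟨w, hw, rfl⟩
  rw [t_eq]
  repeat' first
    | exact h _ (by decide)
    | refine sub_mem ?_ ?_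
    | refine add_mem ?_ ?_

theorem multi_le_deg {n : ℕ} (d : Fin n → ℕ) (j : Fin n) :
    multiPart n d ≤ degPart n j (d j) := by
  refine AddSubgroup.closure_mono ?_
  rintro c ⟨w, hw, rfl⟩
  exact ⟨w, hw j, rfl⟩

/-- The class of `t` in `B_3(A_5(ℤ))`. -/
noncomputable def T : B 5 3 := QuotientAddGroup.mk (⟨t, t_mem⟩ : L 5 3)

theorem T_ne : T ≠ 0 := by
  intro h
  have h' : (⟨t, t_mem⟩ : L 5 3) ∈ (L 5 4).addSubgroupOf (L 5 3) :=
    (QuotientAddGroup.eq_zero_iff _).1 h
  rw [AddSubgroup.mem_addSubgroupOf] at h'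
  exact φ_t (φ_L4 _ h')

theorem three_T : 3 • T = 0 := by
  have h : (3 • (⟨t, t_mem⟩ : L 5 3)) ∈ (L 5 4).addSubgroupOf (L 5 3) := by
    rw [AddSubgroup.mem_addSubgroupOf]
    have := three_t_mem
    simpa using this
  exact (QuotientAddGroup.eq_zero_iff _).2 h

theorem order_T : addOrderOf T = 3 := by
  have : Fact (Nat.Prime 3) := ⟨by norm_num⟩
  exact addOrderOf_eq_prime three_T T_ne

theorem multi_T : HasMultidegree (fun _ => 1) T := ⟨⟨t, t_mem⟩, t_multi, rfl⟩

theorem deg_T (j : Fin 5) : HasDegree j 1 T :=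
  ⟨⟨t, t_mem⟩, multi_le_deg (fun _ => 1) j t_multi, rfl⟩

theorem main : (∃ T : B 5 3, addOrderOf T = 3 ∧ HasMultidegree (fun _ => 1) T ∧
    ∀ j : Fin 5, HasDegree j 1 T) ∧ ¬ Q1 := by
  refine ⟨⟨T, order_T, multi_T, deg_T⟩, ?_⟩
  intro hQ
  have h := hQ 5 3 (by norm_num) (by norm_num) 0 1 T T_ne
    (addOrderOf_pos_iff.1 (by rw [order_T]; norm_num)) (deg_T 0)
  rw [order_T] at h
  norm_num at h

end Pool.Agent.N26.Lcs426
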