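import Pool.Agent.N375.RF.Stm

set_option autoImplicit false
set_option linter.dupNamespace false
set_option linter.unusedSectionVars false

/-!
# Project RF (helper375), page MP_552896_co: from forests to graphs, the deterministic part
-/

namespace Pool.Agent.N26.RF

open Finset Classical Pool.Agent.N375.RF

noncomputable section

namespace Det

/-! ### Counting edges -/

theorem edge_count {V : Type} [Fintype V] (G : SimpleGraph V) (u : V) :
    (G.induce ({u}ᶜ : Set V)).edgeFinset.card + G.degree u = G.edgeFinset.card := by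
  have h1 := SimpleGraph.card_edgeFinset_induce_compl_singleton G u
  have h2 := SimpleGraph.card_edgeFinset_deleteIncidenceSet G u
  have h3 := SimpleGraph.degree_le_card_edgeFinset G u
  omega

theorem deg_eq {V W : Type} [Fintype V] [Fintype W] (G : SimpleGraph V) (H : SimpleGraph W)
    (u : V) (a : W) (hE : H.edgeSet.ncard = G.edgeSet.ncard) (h : CardIso G u H a) :
    G.degree u = H.degree a := by
  obtain ⟨e, he⟩ := h
  have hG := edge_count G u
  have hH := edge_count H a
  have e' : ({u}ᶜ : Set V) ≃ ({a}ᶜ : Set W) := e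
  let f : (G.induce ({u}ᶜ : Set V)) ≃g (H.induce ({a}ᶜ : Set W)) :=
    { toEquiv := e
      map_rel_iff' := by
        intro x y
        exact he x y }
  have h1 := f.card_edgeFinset_eq
  have h2 : H.edgeFinset.card = G.edgeFinset.card := by
    rw [← Set.ncard_coe_finset, ← Set.ncard_coe_finset, SimpleGraph.coe_edgeFinset,
      SimpleGraph.coe_edgeFinset]
    exact hE
  omega

theorem degree_one_iff {V : Type} [Fintype V] (G : SimpleGraph V) (u : V) :
    G.degree u = 1 ↔ ∃! y, G.Adj u y := by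
  rw [SimpleGraph.degree_eq_one_iff_existsUnique_adj]

/-! ### Extending bijections -/

theorem ext_equiv {V W : Type} (u : V) (a : W) (e : {x : V // x ≠ u} ≃ {y : W // y ≠ a}) :
    ∃ φ : V ≃ W, φ u = a ∧ ∀ (x : V) (h : x ≠ u), φ x = (e ⟨x, h⟩ : W) := by
  let f : V → W := fun x => if h : x = u then a else (e ⟨x, h⟩ : W)
  have hinj : Function.Injective f := by
    intro x y hxy
    by_cases hx : x = u
    · by_cases hy : y = u
      · rw [hx, hy]
      · exfalso
        simp only [f, dif_pos hx, dif_neg hy] at hxy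
        exact (e ⟨y, hy⟩).2 hxy.symm
    · by_cases hy : y = u
      · exfalso
        simp only [f, dif_neg hx, dif_pos hy] at hxy
        exact (e ⟨x, hx⟩).2 hxy
      · simp only [f, dif_neg hx, dif_neg hy] at hxy
        have := e.injective (Subtype.ext hxy)
        exact congrArg Subtype.val this
  have hsurj : Function.Surjective f := by
    intro y
    by_cases hy : y = a
    · exact ⟨u, by simp [f, hy]⟩
    · refine ⟨(e.symm ⟨y, hy⟩ : V), ?_⟩
      have hne : ((e.symm ⟨y, hy⟩ : {x : V // x ≠ u}) : V) ≠ u := (e.symm ⟨y, hy⟩).2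
      simp only [f, dif_neg hne]
      have : (⟨((e.symm ⟨y, hy⟩ : {x : V // x ≠ u}) : V), hne⟩ : {x : V // x ≠ u}) =
          e.symm ⟨y, hy⟩ := rfl
      rw [this, Equiv.apply_symm_apply]
  refine ⟨Equiv.ofBijective f ⟨hinj, hsurj⟩, ?_, ?_⟩
  · simp [f]
  · intro x h
    simp [f, h]

/-! ### Rooted forests -/

section
variable {V : Type} [Fintype V] {C : Finset V} {p : V → V}

theorem ne_of_notMem (h : IsRF C p) {x : V} (hx : x ∉ C) : p x ≠ x := by
  intro hp
  obtain ⟨k, hk⟩ := h.2 x
  have : p^[k] x = x := Function.iterate_fixed hp k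
  rw [this] at hk
  exact hx hk

theorem two_ne (h : IsRF C p) {x : V} (hx : x ∉ C) : p (p x) ≠ x := by
  intro hp
  have h1 : ∀ k : ℕ, p^[k] x = x ∨ p^[k] x = p x := by
    intro k
    induction k with
    | zero => left; rfl
    | succ k ih =>
      rw [Function.iterate_succ_apply']
      rcases ih with ih | ih
      · right; rw [ih]
      · left; rw [ih, hp]
  obtain ⟨k, hk⟩ := h.2 x
  rcases h1 k with h2 | h2
  · rw [h2] at hk; exact hx hk
  · rw [h2] at hk
    have h3 := h.1 _ hk
    rw [hp] at h3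
    rw [← h3] at hk
    exact hx hk

/-- depth -/
def dep (C : Finset V) (p : V → V) (h : IsRF C p) (x : V) : ℕ := Nat.find (h.2 x)

theorem dep_succ (h : IsRF C p) {x : V} (hx : x ∉ C) : dep C p h x = dep C p h (p x) + 1 := by
  unfold dep
  rw [Nat.find_eq_iff]
  constructor
  · rw [Function.iterate_succ_apply]
    exact Nat.find_spec (h.2 (p x))
  · intro n hn
    cases n with
    | zero => simpa using hx
    | succ m =>
      rw [Function.iterate_succ_apply]
      exact Nat.find_min (h.2 (p x)) (by omega)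

/-- a set in which every vertex has two neighbours is contained in `C` -/
theorem sub_core {K : SimpleGraph V} (hK : ∀ x y, K.Adj x y → x ∈ C ∧ y ∈ C) (h : IsRF C p)
    (S : Finset V)
    (hS : ∀ x ∈ S, ∃ y ∈ S, ∃ y' ∈ S, y ≠ y' ∧ (GG K p).Adj x y ∧ (GG K p).Adj x y') :
    S ⊆ C := by
  intro x0 hx0
  by_contra hx0C
  obtain ⟨x, hx, hmax⟩ := Finset.exists_max_image (S \ C) (fun x => dep C p h x)
    ⟨x0, by simp [hx0, hx0C]⟩
  rw [Finset.mem_sdiff] at hx
  obtain ⟨y, hy, y', hy', hne, hxy, hxy'⟩ := hS x hx.1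
  have key : ∀ y ∈ S, (GG K p).Adj x y → y = p x := by
    intro y hyS hadj
    rcases hadj with hadj | ⟨hne, hadj | hadj⟩
    · exact absurd (hK _ _ hadj).1 hx.2
    · exact hadj.symm
    · exfalso
      have hyC : y ∉ C := by
        intro hyC
        have := h.1 y hyC
        rw [hadj] at this
        exact hne this
      have h1 := dep_succ h hyC
      rw [hadj] at h1
      have h2 := hmax y (by simp [hyS, hyC])
      omega
  exact hne ((key y hy hxy).trans (key y' hy' hxy').symm)

theorem leaf_ne (h : IsRF C p) {u : V} (hu : Leaf C p u) : p u ≠ u := ne_of_notMem h hu.1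

/-- The unique neighbour of a leaf. -/
theorem leaf_unique {K : SimpleGraph V} (hK : ∀ x y, K.Adj x y → x ∈ C ∧ y ∈ C)
    (h : IsRF C p) {u : V} (hu : Leaf C p u) : ∃! y, (GG K p).Adj u y := by
  refine ⟨p u, Or.inr ⟨(leaf_ne h hu).symm, Or.inl rfl⟩, ?_⟩
  intro y hy
  rcases hy with hy | ⟨_, hy | hy⟩
  · exact absurd (hK _ _ hy).1 hu.1
  · exact hy.symm
  · exact absurd hy (hu.2 y)

theorem upd_isRF (h : IsRF C p) {u w : V} (hu : Leaf C p u) (hw : w ≠ u) :
    IsRF C (Function.update p u w) := by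
  have h1 : ∀ x, x ≠ u → ∀ k : ℕ, (Function.update p u w)^[k] x = p^[k] x ∧ p^[k] x ≠ u := by
    intro x hx k
    induction k with
    | zero => exact ⟨rfl, hx⟩
    | succ k ih =>
      rw [Function.iterate_succ_apply', Function.iterate_succ_apply', ih.1]
      rw [Function.update_of_ne ih.2]
      exact ⟨rfl, hu.2 _⟩
  constructor
  · intro x hx
    have hxu : x ≠ u := by
      rintro rfl
      exact hu.1 hx
    rw [Function.update_of_ne hxu]
    exact h.1 x hx
  · intro x
    by_cases hx : x = u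
    · obtain ⟨k, hk⟩ := h.2 w
      refine ⟨k + 1, ?_⟩
      rw [Function.iterate_succ_apply, hx, Function.update_self, (h1 w hw k).1]
      exact hk
    · obtain ⟨k, hk⟩ := h.2 x
      refine ⟨k, ?_⟩
      rw [(h1 x hx k).1]
      exact hk

theorem mem_L {v x : V} : x ∈ L p v ↔ ∃ k : ℕ, p^[k] x = v := by
  simp [L]

theorem root_unique (h : IsRF C p) {v r x : V} (hv : v ∈ C) (hr : r ∈ C) (hxv : x ∈ L p v)
    (hxr : x ∈ L p r) : v = r := by
  rw [mem_L] at hxv hxr
  obtain ⟨k, hk⟩ := hxv
  obtain ⟨l, hl⟩ := hxr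
  rcases le_total k l with hkl | hkl
  · obtain ⟨m, rfl⟩ := Nat.exists_eq_add_of_le hkl
    rw [add_comm, Function.iterate_add_apply, hk, Function.iterate_fixed (h.1 v hv)] at hl
    exact hl
  · obtain ⟨m, rfl⟩ := Nat.exists_eq_add_of_le hkl
    rw [add_comm, Function.iterate_add_apply, hl, Function.iterate_fixed (h.1 r hr)] at hk
    exact hk.symm

end

end Det

open Det

theorem det (hRF : StDetRF) : StDet := by
  intro V _ K C p u z hcore hp hgood
  have hK := hcore.1
  obtain ⟨hu, hz, v, hv, r, hr, huv, hzr, -, hne0, -, -⟩ := id hgood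
  have huz : u ≠ z := by
    rintro rfl
    have := root_unique hp hv hr huv hzr
    rw [this] at hne0
    exact hne0 rfl
  refine ⟨huz, ?_⟩
  intro W _ H a b hab hE hcu hcz
  -- degrees
  have hda : ∃! y, H.Adj a y := by
    rw [← degree_one_iff, ← deg_eq (GG K p) H u a hE hcu, degree_one_iff]
    exact leaf_unique hK hp hu
  have hdb : ∃! y, H.Adj b y := by
    rw [← degree_one_iff, ← deg_eq (GG K p) H z b hE hcz, degree_one_iff]
    exact leaf_unique hK hp hz
  obtain ⟨e1, he1⟩ := hcu
  obtain ⟨e2, he2⟩ := hcz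
  obtain ⟨φ, hφu, hφ⟩ := ext_equiv u a e1
  obtain ⟨ψ, hψz, hψ⟩ := ext_equiv z b e2
  obtain ⟨a1, ha1, ha1u⟩ := hda
  obtain ⟨w, rfl⟩ := φ.surjective a1
  have hwu : w ≠ u := by
    rintro rfl
    rw [hφu] at ha1
    exact ha1.ne rfl
  -- H is the graph of the new parent function
  obtain ⟨q, hq⟩ : ∃ q : V → V, q = Function.update p u w := ⟨_, rfl⟩
  have hqu : q u = w := by rw [hq, Function.update_self]
  have hqne : ∀ x, x ≠ u → q x = p x := fun x hx => by rw [hq, Function.update_of_ne hx]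
  have hqRF : IsRF C q := by rw [hq]; exact upd_isRF hp hu hwu
  have hau : ∀ x', H.Adj a (φ x') ↔ (GG K q).Adj u x' := by
    intro x'
    constructor
    · intro hadj
      have h1 := ha1u _ hadj
      have h2 : x' = w := φ.injective h1
      rw [h2]
      exact Or.inr ⟨hwu.symm, Or.inl hqu⟩
    · rintro (hadj | ⟨hne, hadj | hadj⟩)
      · exact absurd (hK _ _ hadj).1 hu.1
      · rw [hqu] at hadj
        rw [← hadj]
        exact ha1
      · rw [hqne x' hne.symm] at hadj
        exact absurd hadj (hu.2 x')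
  have hHq : ∀ x x', H.Adj (φ x) (φ x') ↔ (GG K q).Adj x x' := by
    intro x x'
    by_cases hx : x = u
    · rw [hx, hφu]
      exact hau x'
    · by_cases hx' : x' = u
      · rw [hx', hφu, SimpleGraph.adj_comm, SimpleGraph.adj_comm (GG K q)]
        exact hau x
      · rw [hφ x hx, hφ x' hx', he1]
        show K.Adj x x' ∨ (x ≠ x' ∧ (p x = x' ∨ p x' = x)) ↔
          K.Adj x x' ∨ (x ≠ x' ∧ (q x = x' ∨ q x' = x))
        rw [hqne x hx, hqne x' hx']
  -- the vertex y
  obtain ⟨y, rfl⟩ := φ.surjective b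
  have hyu : y ≠ u := by
    rintro rfl
    exact hab hφu.symm
  have hyuniq : ∃! y', (GG K q).Adj y y' := by
    obtain ⟨b1, hb1, hb1u⟩ := hdb
    obtain ⟨y1, rfl⟩ := φ.surjective b1
    refine ⟨y1, (hHq _ _).1 hb1, ?_⟩
    intro y2 hy2
    exact φ.injective (hb1u _ ((hHq _ _).2 hy2))
  have hyC : y ∉ C := by
    intro hyC
    obtain ⟨y1, y2, hne, h1, h2⟩ := hcore.2 y hyC
    exact hne (hyuniq.unique (Or.inl h1) (Or.inl h2))
  have hyleaf : Leaf C q y := by
    refine ⟨hyC, ?_⟩
    intro x hx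
    have h1 : q y ≠ y := ne_of_notMem hqRF hyC
    have hxy : x ≠ y := by
      rintro rfl
      exact h1 hx
    have h2 : (GG K q).Adj y (q y) := Or.inr ⟨h1.symm, Or.inl rfl⟩
    have h3 : (GG K q).Adj y x := Or.inr ⟨hxy.symm, Or.inr hx⟩
    have h4 := hyuniq.unique h2 h3
    apply two_ne hqRF hyC
    rw [h4]
    exact hx
  -- the map σ
  obtain ⟨σ, hσ⟩ : ∃ σ : V ≃ V, σ = ψ.trans φ.symm := ⟨_, rfl⟩
  have hσφ : ∀ x, φ (σ x) = ψ x := fun x => by rw [hσ]; simp
  have hσz : σ z = y := φ.injective (by rw [hσφ, hψz])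
  have hσadj : ∀ x x', x ≠ z → x' ≠ z → ((GG K q).Adj (σ x) (σ x') ↔ (GG K p).Adj x x') := by
    intro x x' hx hx'
    rw [← hHq, hσφ, hσφ, hψ x hx, hψ x' hx', he2]
  have hzC : ∀ x ∈ C, x ≠ z := by
    rintro x hx rfl
    exact hz.1 hx
  have hsub : C.image σ ⊆ C := by
    apply sub_core hK hqRF
    intro x hx
    rw [Finset.mem_image] at hx
    obtain ⟨x0, hx0, rfl⟩ := hx
    obtain ⟨y1, y2, hne, h1, h2⟩ := hcore.2 x0 hx0
    have hy1 := (hK _ _ h1).2
    have hy2 := (hK _ _ h2).2
    refine ⟨σ y1, Finset.mem_image_of_mem _ hy1, σ y2, Finset.mem_image_of_mem _ hy2,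
      fun h => hne (σ.injective h), ?_, ?_⟩
    · exact (hσadj _ _ (hzC _ hx0) (hzC _ hy1)).2 (Or.inl h1)
    · exact (hσadj _ _ (hzC _ hx0) (hzC _ hy2)).2 (Or.inl h2)
  have hCeq : C.image σ = C := by
    apply Finset.eq_of_subset_of_card_le hsub
    rw [Finset.card_image_of_injective _ σ.injective]
  have hσC : ∀ x, σ x ∈ C ↔ x ∈ C := by
    intro x
    constructor
    · intro hx
      rw [← hCeq, Finset.mem_image] at hx
      obtain ⟨x', hx', hxx⟩ := hx
      rw [← σ.injective hxx]
      exact hx'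
    · intro hx
      exact hsub (Finset.mem_image_of_mem _ hx)
  have hσp : ∀ n : ℕ, ∀ x, x ≠ z → dep C p hp x = n → σ (p x) = q (σ x) := by
    intro n
    induction n using Nat.strong_induction_on with
    | _ n ih =>
      intro x hxz hn
      by_cases hxC : x ∈ C
      · rw [hp.1 x hxC, hqRF.1 _ ((hσC x).2 hxC)]
      · have hpz : p x ≠ z := hz.2 x
        have hpx : p x ≠ x := ne_of_notMem hp hxC
        have hadj : (GG K p).Adj x (p x) := Or.inr ⟨hpx.symm, Or.inl rfl⟩
        have hadj' := (hσadj _ _ hxz hpz).2 hadj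
        have hσxC : σ x ∉ C := fun h => hxC ((hσC x).1 h)
        rcases hadj' with h1 | ⟨h1, h2 | h2⟩
        · exact absurd (hK _ _ h1).1 hσxC
        · exact h2.symm
        · exfalso
          by_cases hpC : p x ∈ C
          · rw [hqRF.1 _ ((hσC _).2 hpC)] at h2
            exact h1 h2.symm
          · have hd := dep_succ hp hxC
            have h3 := ih (dep C p hp (p x)) (by omega) (p x) hpz rfl
            rw [← h3] at h2
            exact two_ne hp hxC (σ.injective h2)
  -- the isomorphism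
  obtain ⟨θ, hθC, hθp⟩ := hRF V C p u z w y σ hp hgood hwu (by rw [← hq]; exact hyleaf) hσz hσC
    (fun x hx => by rw [← hq]; exact hσp _ x hx rfl)
  rw [← hq] at hθp
  refine ⟨θ.trans φ, ?_⟩
  intro x x'
  rw [Equiv.trans_apply, Equiv.trans_apply, hHq]
  have hθK : ∀ x x', K.Adj (θ x) (θ x') ↔ K.Adj x x' := by
    intro x x'
    constructor
    · intro hadj
      obtain ⟨h1, h2⟩ := hK _ _ hadj
      have h3 := θ.injective (hθC _ h1)
      have h4 := θ.injective (hθC _ h2)
      rw [h3, h4] at hadj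
      exact hadj
    · intro hadj
      obtain ⟨h1, h2⟩ := hK _ _ hadj
      rw [hθC _ h1, hθC _ h2]
      exact hadj
  show K.Adj (θ x) (θ x') ∨ (θ x ≠ θ x' ∧ (q (θ x) = θ x' ∨ q (θ x') = θ x)) ↔
    K.Adj x x' ∨ (x ≠ x' ∧ (p x = x' ∨ p x' = x))
  rw [hθK, ← hθp, ← hθp, θ.injective.ne_iff, θ.injective.eq_iff, θ.injective.eq_iff]

end

end Pool.Agent.N26.RF
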