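import Pool.Agent.N375.RF.Basic

set_option autoImplicit false
set_option linter.dupNamespace false
set_option linter.unusedSectionVars false

/-!
# Project RF (helper375), page MP_552896_co: Lemma 4, re-randomising one tree
-/

namespace Pool.Agent.N26.RF

open Finset Classical Pool.Agent.N375.RF

noncomputable section

namespace L4

variable {V : Type} [Fintype V]

/-- `p'` is obtained from `p` by changing the tree with the root `v'` -/
def Chg (p p' : V → V) (v' : V) : Prop :=
  (∀ x, x ∉ (L p v').erase v' → p' x = p x) ∧ (∀ x ∈ L p v', p' x ∈ L p v') ∧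
    ∀ x ∈ L p v', ∃ k : ℕ, p'^[k] x = v'

theorem iter_out {C : Finset V} {p p' : V → V} (h : IsRF C p) {v' : V} (hv' : v' ∈ C)
    (hc : Chg p p' v') {x : V} (hx : x ∉ L p v') (k : ℕ) :
    p'^[k] x = p^[k] x ∧ p^[k] x ∉ L p v' := by
  induction k with
  | zero => exact ⟨rfl, hx⟩
  | succ k ih =>
    rw [Function.iterate_succ_apply', Function.iterate_succ_apply', ih.1]
    constructor
    · exact hc.1 _ (fun hm => ih.2 (mem_of_mem_erase hm))
    · rw [h.p_mem hv']
      exact ih.2

theorem L_same {C : Finset V} {p p' : V → V} (h : IsRF C p) (h' : IsRF C p') {v' : V}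
    (hv' : v' ∈ C) (hc : Chg p p' v') {w : V} (hw : w ∈ C) : L p' w = L p w := by
  ext x
  by_cases hx : x ∈ L p v'
  · have h1 : x ∈ L p' v' := mem_L.mpr (hc.2.2 x hx)
    constructor
    · intro h2
      rw [h'.root_unique hw hv' h2 h1]
      exact hx
    · intro h2
      rw [h.root_unique hw hv' h2 hx]
      exact h1
  · rw [mem_L, mem_L]
    constructor
    · rintro ⟨k, hk⟩
      exact ⟨k, by rw [← (iter_out h hv' hc hx k).1]; exact hk⟩
    · rintro ⟨k, hk⟩
      exact ⟨k, by rw [(iter_out h hv' hc hx k).1]; exact hk⟩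

/-- the glued parent function -/
def glue (p g : V → V) (v' : V) : V → V := fun x => if x ∈ L p v' then g x else p x

theorem mem_RFU {C U : Finset V} {g : V → V} : g ∈ RFU C U ↔
    (∀ x, x ∉ U ∨ x ∈ C → g x = x) ∧ (∀ x ∈ U, g x ∈ U) ∧ ∀ x ∈ U, ∃ k : ℕ, g^[k] x ∈ C := by
  simp [RFU]

theorem glue_iter {p g : V → V} {v' : V}
    (hg : g ∈ RFU {v'} (L p v')) {x : V} (hx : x ∈ L p v') (k : ℕ) :
    (glue p g v')^[k] x = g^[k] x ∧ g^[k] x ∈ L p v' := by
  rw [mem_RFU] at hg
  induction k with
  | zero => exact ⟨rfl, hx⟩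
  | succ k ih =>
    rw [Function.iterate_succ_apply', Function.iterate_succ_apply', ih.1]
    constructor
    · unfold glue
      rw [if_pos ih.2]
    · exact hg.2.1 _ ih.2

theorem glue_chg {C : Finset V} {p g : V → V} (h : IsRF C p) {v' : V} (hv' : v' ∈ C)
    (hg : g ∈ RFU {v'} (L p v')) : Chg p (glue p g v') v' := by
  have hg' := mem_RFU.mp hg
  refine ⟨?_, ?_, ?_⟩
  · intro x hx
    by_cases hxv : x = v'
    · rw [hxv, h.fix hv']
      unfold glue
      rw [if_pos (self_mem_L p v')]
      exact hg'.1 v' (Or.inr (mem_singleton_self v'))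
    · have : x ∉ L p v' := fun hm => hx (mem_erase.mpr ⟨hxv, hm⟩)
      unfold glue
      rw [if_neg this]
  · intro x hx
    unfold glue
    rw [if_pos hx]
    exact hg'.2.1 x hx
  · intro x hx
    obtain ⟨k, hk⟩ := hg'.2.2 x hx
    refine ⟨k, ?_⟩
    rw [(glue_iter hg hx k).1]
    exact mem_singleton.mp hk

theorem glue_RF {C : Finset V} {p g : V → V} (h : IsRF C p) {v' : V} (hv' : v' ∈ C)
    (hg : g ∈ RFU {v'} (L p v')) : IsRF C (glue p g v') := by
  have hc := glue_chg h hv' hg
  constructor
  · intro x hx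
    rw [hc.1 x ?_, h.fix hx]
    intro hm
    exact (mem_erase.mp hm).1 (h.root_mem hx (mem_erase.mp hm).2)
  · intro x
    by_cases hx : x ∈ L p v'
    · obtain ⟨k, hk⟩ := hc.2.2 x hx
      exact ⟨k, by rw [hk]; exact hv'⟩
    · obtain ⟨k, hk⟩ := h.2 x
      exact ⟨k, by rw [(iter_out h hv' hc hx k).1]; exact hk⟩

theorem glue_inj {p g g' : V → V} {v' : V} (hg : g ∈ RFU {v'} (L p v'))
    (hg' : g' ∈ RFU {v'} (L p v')) (he : glue p g v' = glue p g' v') : g = g' := by
  rw [mem_RFU] at hg hg'
  funext x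
  by_cases hx : x ∈ L p v'
  · have := congrFun he x
    unfold glue at this
    rw [if_pos hx, if_pos hx] at this
    exact this
  · rw [hg.1 x (Or.inl hx), hg'.1 x (Or.inl hx)]

/-- number of re-randomised forests -/
theorem card_RFU (hCay : StCayley) {p : V → V} {v' : V} {t : ℕ} (ht : 3 ≤ t)
    (hcard : (L p v').card + 1 = t) : (RFU {v'} (L p v')).card = (t - 1) ^ (t - 3) := by
  have h1 := hCay V {v'} (L p v') (by
    intro x hx
    rw [mem_singleton.mp hx]
    exact self_mem_L p v')
  have h2 : (L p v' \ {v'}).card = t - 2 := by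
    rw [card_sdiff_of_subset (by
      intro x hx
      rw [mem_singleton.mp hx]
      exact self_mem_L p v'), card_singleton]
    omega
  have h3 : (L p v').card = t - 1 := by omega
  rw [h2, h3, card_singleton, one_mul] at h1
  have h4 : (t - 1) ^ (t - 2) = (t - 1) ^ (t - 3) * (t - 1) := by
    rw [← pow_succ]
    congr 1
    omega
  rw [h4] at h1
  exact Nat.eq_of_mul_eq_mul_right (by omega) h1

/-- the reconstruction data -/
def Q (p' : V → V) (v v' u : V) (p : V → V) (σ : V ≃ V) : Prop :=
  σ v = v' ∧ (∀ x, σ x ∈ L p' v' ↔ x ∈ (L p' v).erase u) ∧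
    (∀ x ∈ (L p' v).erase u, x ≠ v → p (σ x) = σ (p' x)) ∧
    (∀ x ∈ (L p' v).erase u, p' x ≠ u) ∧
    ∀ x, x ∉ (L p' v').erase v' → p x = p' x

theorem Q_sub {p' : V → V} {v v' u : V} {p : V → V} {σ : V ≃ V} (h : Q p' v v' u p σ) (x : V) :
    x ∈ ((L p' v).erase u).erase v ↔ σ x ∈ (L p' v').erase v' := by
  rw [mem_erase, mem_erase (a := σ x), h.2.1, ← h.1, σ.injective.ne_iff]

theorem card_Q {C : Finset V} {p' : V → V} (h' : IsRF C p') {v v' u : V} {t : ℕ} (ht : 3 ≤ t)
    (hv : v ∈ C) (hv' : v' ∈ C)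
    (h1 : (L p' v).card = t) (h2 : (L p' v').card + 1 = t) (hu : u ∈ L p' v) (huv : u ≠ v) :
    (univ.filter (fun p : V → V => ∃ σ, Q p' v v' u p σ)).card ≤ (t - 2).factorial := by
  have hc1 : (((L p' v).erase u).erase v).card = t - 2 := by
    rw [card_erase_of_mem (mem_erase.mpr ⟨huv.symm, self_mem_L p' v⟩), card_erase_of_mem hu, h1]
    omega
  have hc2 : ((L p' v').erase v').card = t - 2 := by
    rw [card_erase_of_mem (self_mem_L p' v')]
    omega
  let α := {x // x ∈ ((L p' v).erase u).erase v}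
  let β := {x // x ∈ (L p' v').erase v'}
  have hα : Fintype.card α = t - 2 := by
    rw [Fintype.card_coe, hc1]
  have hβ : Fintype.card β = t - 2 := by
    rw [Fintype.card_coe, hc2]
  have e0 : α ≃ β := Fintype.equivOfCardEq (hα.trans hβ.symm)
  have hcard : Fintype.card (α ≃ β) = (t - 2).factorial := by
    rw [Fintype.card_equiv e0, hα]
  let F : (V → V) → (α ≃ β) := fun p =>
    if h : ∃ σ, Q p' v v' u p σ then (Classical.choose h).subtypeEquiv
      (fun x => Q_sub (Classical.choose_spec h) x) else e0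
  rw [← hcard, ← Finset.card_univ]
  apply Finset.card_le_card_of_injOn F (fun p _ => mem_univ _)
  intro p1 hp1 p2 hp2 heq
  have hp1' : ∃ σ, Q p' v v' u p1 σ := by simpa using hp1
  have hp2' : ∃ σ, Q p' v v' u p2 σ := by simpa using hp2
  have hF : ∀ p, (∃ σ, Q p' v v' u p σ) → ∃ σ, Q p' v v' u p σ ∧
      ∀ x (hx : x ∈ ((L p' v).erase u).erase v), ((F p ⟨x, hx⟩ : β) : V) = σ x := by
    intro p hp
    refine ⟨Classical.choose hp, Classical.choose_spec hp, ?_⟩
    intro x hx
    simp only [F, dif_pos hp]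
    rfl
  obtain ⟨σ1, hQ1, hs1⟩ := hF p1 hp1'
  obtain ⟨σ2, hQ2, hs2⟩ := hF p2 hp2'
  have hσ : ∀ x ∈ ((L p' v).erase u).erase v, σ1 x = σ2 x := by
    intro x hx
    rw [← hs1 x hx, ← hs2 x hx, heq]
  have hσ' : ∀ x ∈ (L p' v).erase u, σ1 x = σ2 x := by
    intro x hx
    by_cases hxv : x = v
    · rw [hxv, hQ1.1, hQ2.1]
    · exact hσ x (mem_erase.mpr ⟨hxv, hx⟩)
  funext x
  by_cases hx : x ∈ (L p' v').erase v'
  · obtain ⟨x0, rfl⟩ := σ1.surjective x
    have hx0 := (Q_sub hQ1 x0).2 hx
    have hx0v := (mem_erase.mp hx0).1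
    have hx0m := (mem_erase.mp hx0).2
    have h5 : p' x0 ∈ (L p' v).erase u := by
      rw [mem_erase]
      exact ⟨hQ1.2.2.2.1 x0 hx0m, (h'.p_mem hv).2 (mem_of_mem_erase hx0m)⟩
    rw [hQ1.2.2.1 x0 hx0m hx0v, hσ x0 hx0, hQ2.2.2.1 x0 hx0m hx0v]
    exact hσ' _ h5
  · rw [hQ1.2.2.2.2 x hx, hQ2.2.2.2.2 x hx]

/-- the relation of the double counting -/
def Rel (C : Finset V) (t : ℕ) (p p' : V → V) : Prop :=
  ∃ v ∈ C, ∃ v' ∈ C, ∃ u, (L p v).card = t ∧ (L p v').card + 1 = t ∧ u ∈ L p v ∧ Leaf C p u ∧
    TIso p ((L p v).erase u) v p (L p v') v' ∧ Chg p p' v'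

end L4

open L4

theorem lem4 (hCay : StCayley) : St4 := by
  intro V _ C t b₁ b₂ ht
  apply double_count _ _ (Rel C t)
  · -- forward
    intro p hp
    rw [mem_filter, mem_RF] at hp
    obtain ⟨hp, -, -, v, hv, v', hv', u, h1, h2, h3, h4, h5⟩ := hp
    rw [← card_RFU hCay ht h2]
    apply Finset.card_le_card_of_injOn (fun g => glue p g v')
    · intro g hg
      have hg' : g ∈ RFU {v'} (L p v') := hg
      simp only [coe_filter, Set.mem_ofPred_eq]
      exact ⟨mem_RF.mpr (glue_RF hp hv' hg'), v, hv, v', hv', u, h1, h2, h3, h4, h5,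
        glue_chg hp hv' hg'⟩
    · intro g hg g' hg' he
      exact glue_inj hg hg' he
  · -- backward
    intro p' hp'
    rw [mem_RF] at hp'
    rcases Finset.eq_empty_or_nonempty (((RF C).filter (fun p => N C p t ≤ b₁ ∧
      N C p (t - 1) ≤ b₂ ∧ TB C p t)).filter (fun p => Rel C t p p')) with hemp | ⟨p0, hp0⟩
    · rw [hemp, card_empty]
      exact Nat.zero_le _
    · have hN : ∀ s, N C p' s = N C p0 s := by
        intro s
        rw [mem_filter, mem_filter, mem_RF] at hp0
        obtain ⟨⟨hp0, -⟩, v, hv, v', hv', u, -, -, -, -, -, hc⟩ := hp0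
        unfold N
        congr 1
        apply filter_congr
        intro w hw
        rw [L_same hp0 hp' hv' hc hw]
      have hb1 : (C.filter (fun v => (L p' v).card = t)).card ≤ b₁ := by
        have := hN t
        unfold N at this
        rw [this]
        exact (mem_filter.mp (mem_filter.mp hp0).1).2.1
      have hb2 : (C.filter (fun v => (L p' v).card = t - 1)).card ≤ b₂ := by
        have := hN (t - 1)
        unfold N at this
        rw [this]
        exact (mem_filter.mp (mem_filter.mp hp0).1).2.2.1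
      have hsub : ((RF C).filter (fun p => N C p t ≤ b₁ ∧
          N C p (t - 1) ≤ b₂ ∧ TB C p t)).filter (fun p => Rel C t p p') ⊆
          (C.filter (fun v => (L p' v).card = t)).biUnion (fun v =>
            (C.filter (fun v' => (L p' v').card = t - 1)).biUnion (fun v' =>
              ((L p' v).filter (fun u => u ≠ v)).biUnion (fun u =>
                univ.filter (fun p : V → V => ∃ σ, Q p' v v' u p σ)))) := by
        intro p hp
        rw [mem_filter, mem_filter, mem_RF] at hp
        obtain ⟨⟨hp, -⟩, v, hv, v', hv', u, h1, h2, h3, h4, ⟨σ, hσ1, hσ2, hσ3⟩, hc⟩ := hp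
        have hLv := L_same hp hp' hv' hc hv
        have hLv' := L_same hp hp' hv' hc hv'
        simp only [mem_biUnion, mem_filter, mem_univ, true_and]
        have hvv : v ≠ v' := by
          rintro rfl
          omega
        have hout : ∀ x ∈ L p v, p' x = p x := by
          intro x hx
          apply hc.1
          intro hm
          exact hvv (hp.root_unique hv hv' hx (mem_of_mem_erase hm))
        refine ⟨v, ⟨hv, by rw [hLv]; exact h1⟩, v', ⟨hv', by rw [hLv']; omega⟩, u,
          ⟨by rw [hLv]; exact h3, ?_⟩, σ, hσ1, ?_, ?_, ?_, ?_⟩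
        · rintro rfl
          exact h4.1 hv
        · rw [hLv, hLv']
          exact hσ2
        · rw [hLv]
          intro x hx hxv
          rw [hout x (mem_of_mem_erase hx)]
          exact (hσ3 x hx hxv).symm
        · rw [hLv]
          intro x hx
          rw [hout x (mem_of_mem_erase hx)]
          exact h4.2 x
        · rw [hLv']
          intro x hx
          exact (hc.1 x hx).symm
      refine (card_le_card hsub).trans ?_
      have hfin : ∀ v ∈ C.filter (fun v => (L p' v).card = t),
          ((C.filter (fun v' => (L p' v').card = t - 1)).biUnion (fun v' =>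
              ((L p' v).filter (fun u => u ≠ v)).biUnion (fun u =>
                univ.filter (fun p : V → V => ∃ σ, Q p' v v' u p σ)))).card ≤
            b₂ * (t * (t - 2).factorial) := by
        intro v hv
        rw [mem_filter] at hv
        refine (card_biUnion_le_card_mul _ _ (t * (t - 2).factorial) ?_).trans
          (Nat.mul_le_mul_right _ hb2)
        intro v' hv'
        rw [mem_filter] at hv'
        refine (card_biUnion_le_card_mul _ _ ((t - 2).factorial) ?_).trans
          (Nat.mul_le_mul_right _ ?_)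
        · intro u hu
          rw [mem_filter] at hu
          exact card_Q hp' ht hv.1 hv'.1 hv.2 (by have := hv'.2; omega) hu.1 hu.2
        · exact (card_filter_le _ _).trans hv.2.le
      refine (card_biUnion_le_card_mul _ _ _ hfin).trans ?_
      refine (Nat.mul_le_mul_right _ hb1).trans ?_
      apply le_of_eq
      ring

end

end Pool.Agent.N26.RF
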